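import Pool.Agent.J6H80.BG.Stm6
import Pool.Agent.J6H80.BG.Cor1
import Pool.Agent.J6H76.BG.SL

/-!
# Module EUK: a state with energy of the order of Lee, Huang and Yang, with a gap of order `ρ`

Adapted from `Pool/Agent/J6H8/BG/EU.lean` (the case `K = 0`).
-/

set_option autoImplicit false

open MeasureTheory UnitAddTorus
open scoped ComplexConjugate ENNReal

namespace Pool.Agent.J6H62.BG

open Pool.Agent.H751R2.LHY Pool.Agent.H751R2.LHY.G80 Pool.Agent.J6H80.BG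

noncomputable section

/-- a normalised trial state -/
theorem trialE {N : ℕ} {W : T3 → ℝ} (hW : Pot W) (hWm : Measurable W) {q : ℝ} (hq : 0 < q)
    {B1 : Finset Mom} (hB1 : Sym B1) {c1 : Mom → ℝ} (hc1 : ∀ n, c1 (-n) = c1 n)
    {μ s X θ Δ : ℝ} (hΔ : 0 ≤ Δ) (hs : s = N * ∫ y, W y) (hs0 : 0 ≤ s)
    (hμ : Δ + (2 + θ) * s ≤ μ)
    (hω : (N : ℝ) * ∑ n ∈ B1, c1 n ^ 2 ≤ θ / 2) (hX : Qf W q μ B1 c1 ≤ X) :
    ∃ φ : Cfg N → ℂ, MemLp φ 2 ∧ ∫ x, ‖φ x‖ ^ 2 = 1 ∧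
      kinE q φ + potE (fun y => ENNReal.ofReal (W y)) φ +
        ENNReal.ofReal Δ * occE φ (fun n => n ≠ 0) ≤
        ENNReal.ofReal ((N : ℝ) ^ 2 / 2 * X) := by
  obtain ⟨a, ha0, ha⟩ := upperW N hW hB1 c1 hc1
    (kap_neg (fun n : Mom => n ≠ 0) q Δ (fun n => by simp))
    (kap_zero (fun n : Mom => n ≠ 0) q Δ (by simp))
    (kap_nonneg (fun n : Mom => n ≠ 0) hq hΔ)
  set B := insert 0 B1
  set t : ℝ := 1 / Real.sqrt (nrm B a) with ht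
  have ht2 : t ^ 2 = 1 / nrm B a := by
    rw [ht, div_pow, Real.sq_sqrt ha0.le, one_pow]
  refine ⟨trig B (fun M => (t : ℂ) * a M), trig_memLp _ _, ?_, ?_⟩
  · rw [trig_norm, nrm_scale, ht2]; field_simp
  have hE := enG_trig (fun n : Mom => n ≠ 0) B (fun M => (t : ℂ) * a M) hq hΔ hW hWm
  unfold enG at hE
  rw [hE]
  refine ENNReal.ofReal_le_ofReal ?_
  rw [kinG_scale, potF_scale, ← mul_add, ht2]
  set ω := ∑ n ∈ B1, c1 n ^ 2 with hωd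
  have hω0 : 0 ≤ ω := Finset.sum_nonneg (fun n _ => sq_nonneg _)
  have hQe : (∫ y, W y * (1 - wf B1 c1 y) ^ 2)
      + 2 * ∑ n ∈ B1, kap (fun n : Mom => n ≠ 0) q Δ n * c1 n ^ 2 + 2 * (μ - Δ) * ω ≤
      Qf W q μ B1 c1 := by
    unfold Qf
    rw [hωd, Finset.mul_sum, Finset.mul_sum, add_assoc, ← Finset.sum_add_distrib]
    refine add_le_add le_rfl (Finset.sum_le_sum fun n _ => ?_)
    have h1 : kap (fun n : Mom => n ≠ 0) q Δ n ≤ q * H751R2.LHY.sq n + Δ := by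
      unfold kap
      split_ifs
      · exact le_rfl
      · linarith
    have h2 := mul_le_mul_of_nonneg_right h1 (sq_nonneg (c1 n))
    linarith
  have h4 : 4 * (∫ y, W y) * (N * ω) * (1 + N * ω) ≤ 2 * (μ - Δ) * ω := by
    have h5 : 4 * (∫ y, W y) * (N * ω) * (1 + N * ω) = 4 * s * ω * (1 + N * ω) := by
      rw [hs]; ring
    rw [h5]
    have h6 : 4 * s * ω * (1 + N * ω) ≤ 4 * s * ω * (1 + θ / 2) :=
      mul_le_mul_of_nonneg_left (by linarith) (by positivity)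
    have h7 : 4 * s * ω * (1 + θ / 2) = 2 * ((2 + θ) * s) * ω := by ring
    have h8 : 2 * ((2 + θ) * s) * ω ≤ 2 * (μ - Δ) * ω :=
      mul_le_mul_of_nonneg_right (by linarith) hω0
    linarith
  have h8 : (N : ℝ) ^ 2 / 2 * ((∫ y, W y * (1 - wf B1 c1 y) ^ 2) +
      2 * ∑ n ∈ B1, kap (fun n : Mom => n ≠ 0) q Δ n * c1 n ^ 2 +
        4 * (∫ y, W y) * (N * ω) * (1 + N * ω)) ≤
      (N : ℝ) ^ 2 / 2 * X :=
    mul_le_mul_of_nonneg_left (by linarith) (by positivity)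
  have h9 : kinG B a (kap (fun n : Mom => n ≠ 0) q Δ) + potF B a W ≤
      (N : ℝ) ^ 2 / 2 * X * nrm B a :=
    ha.trans (mul_le_mul_of_nonneg_right h8 ha0.le)
  rw [one_div, inv_mul_le_iff₀ ha0, mul_comm (nrm B a)]
  exact h9

theorem euk (h : S_UP) : S_EUK := by
  intro m hm v hvm hv h0 he hne K hK ε hε
  obtain ⟨V0, hV0⟩ : ∃ V0, V0 = ∫ x, v x := ⟨_, rfl⟩
  obtain ⟨b, hb⟩ : ∃ b, b = 1 / (2 * m) := ⟨_, rfl⟩
  have hb0 : 0 < b := by rw [hb]; positivity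
  have hP0 := P0_pos hb0
  obtain ⟨A, hA⟩ : ∃ A, A = scatG m v ^ 2 * Real.pi ^ 2 / P0 b := ⟨_, rfl⟩
  have hA0 : 0 ≤ A := by rw [hA]; positivity
  have hPi := Real.pi_pos
  obtain ⟨δ, hδ, hU⟩ := h m hm v hvm hv h0 he hne (ε / 4) (by positivity)
  rw [← hb, ← hA] at hU
  rw [← hb, ← hA, ← hV0]
  rw [← hV0] at hne
  obtain ⟨V1, hV1⟩ : ∃ V1, V1 = V0 + K / 2 := ⟨_, rfl⟩
  have hV1p : 0 < V1 := by rw [hV1]; positivity
  -- the number `θ`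
  obtain ⟨θ, hθ0, hθ1, hθ⟩ : ∃ θ : ℝ, 0 < θ ∧ θ ≤ 1 ∧ (A + ε / 4) * (θ / 4) ≤ ε / 4 := by
    refine ⟨min 1 (ε / (A + ε / 4)), lt_min one_pos (by positivity), min_le_left _ _, ?_⟩
    have h1 := min_le_right 1 (ε / (A + ε / 4))
    have h2 : (A + ε / 4) * min 1 (ε / (A + ε / 4)) ≤ (A + ε / 4) * (ε / (A + ε / 4)) :=
      mul_le_mul_of_nonneg_left h1 (by positivity)
    have h3 : (A + ε / 4) * (ε / (A + ε / 4)) = ε := by field_simp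
    linarith
  obtain ⟨Γ, hΓ⟩ : ∃ Γ, Γ = 2 * A + 2 * ε + 1 := ⟨_, rfl⟩
  have hΓ0 : 0 < Γ := by rw [hΓ]; positivity
  refine ⟨min (δ / (3 * V1)) ((θ * V1 / Γ) ^ 2 / (2 * V1)), lt_min (by positivity)
    (by positivity), fun ρ hρ hρ1 => ?_⟩
  obtain ⟨S, hS⟩ : ∃ S, S = √(2 * ρ * V0 + K * ρ) := ⟨_, rfl⟩
  have hS0 : 0 < S := by rw [hS]; positivity
  have hSS : S ^ 2 = 2 * ρ * V1 := by rw [hS, Real.sq_sqrt (by positivity), hV1]; ring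
  have hSθ : S * Γ ≤ θ * V1 := by
    have h1 : ρ ≤ (θ * V1 / Γ) ^ 2 / (2 * V1) := hρ1.trans (min_le_right _ _)
    rw [le_div_iff₀ (by positivity)] at h1
    have h2 : S ^ 2 ≤ (θ * V1 / Γ) ^ 2 := by rw [hSS]; linarith
    have h3 : S ≤ θ * V1 / Γ := le_of_pow_le_pow_left₀ (by norm_num) (by positivity) h2
    rwa [le_div_iff₀ hΓ0] at h3
  obtain ⟨μ, hμ⟩ : ∃ μ, μ = (2 + θ) * (ρ * V1) := ⟨_, rfl⟩
  have hμ0 : 0 < μ := by rw [hμ]; positivity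
  have hμδ : μ ≤ δ := by
    have h1 : ρ ≤ δ / (3 * V1) := hρ1.trans (min_le_left _ _)
    rw [le_div_iff₀ (by positivity)] at h1
    have h2 : (2 + θ) * (ρ * V1) ≤ 3 * (ρ * V1) :=
      mul_le_mul_of_nonneg_right (by linarith) (by positivity)
    rw [hμ]; linarith
  have hsμ : √μ ≤ (1 + θ / 4) * S := by
    rw [Real.sqrt_le_iff]
    refine ⟨by positivity, ?_⟩
    rw [mul_pow, hSS, hμ]
    have h1 : 0 ≤ θ ^ 2 / 16 * (2 * ρ * V1) := by positivity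
    nlinarith
  obtain ⟨L1, hL1, hU1⟩ := hU μ hμ0 hμδ
  obtain ⟨L2, hL2, hU2⟩ := Pool.Agent.J6H76.BG.t_SL m hm v hvm hv h0 he (μ / 2) (by positivity)
    S hS0
  rw [← hb] at hU2
  refine ⟨⌈ρ * (L1 + L2) ^ 3⌉₊, fun N hN ℓ hℓ hNℓ => ?_⟩
  have hℓL : L1 + L2 ≤ ℓ := by
    have h1 : ρ * (L1 + L2) ^ 3 ≤ ρ * ℓ ^ 3 := by
      rw [← hNℓ]
      exact (Nat.le_ceil _).trans (Nat.cast_le.2 hN)
    have h2 : (L1 + L2) ^ 3 ≤ ℓ ^ 3 := le_of_mul_le_mul_left h1 hρ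
    exact le_of_pow_le_pow_left₀ (by norm_num) hℓ.le h2
  have hN0 : (0 : ℝ) < N := by rw [hNℓ]; positivity
  have hW := Wr_pot hvm hv he hℓ
  have hWm := Wr_meas hvm ℓ
  have hI : ∫ y, Wr v ℓ y = V0 / ℓ ^ 3 := by rw [Wr_int_one hvm hv h0 hℓ, hV0]
  obtain ⟨q, hq⟩ : ∃ q, q = b * (2 * Real.pi / ℓ) ^ 2 := ⟨_, rfl⟩
  have hq0 : 0 < q := by rw [hq]; positivity
  have hU1' := hU1 ℓ (by linarith)
  have hU2' := hU2 ℓ (by linarith)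
  rw [← hq] at hU1' hU2' ⊢
  obtain ⟨η, hη⟩ : ∃ η, η = ε / 4 * S := ⟨_, rfl⟩
  have hη0 : 0 < η := by rw [hη]; positivity
  obtain ⟨C0, hC0⟩ := clip hW hWm hq0 hμ0 (ε := η / ℓ ^ 3) (by positivity)
  obtain ⟨C, hCd⟩ : ∃ C, C = max C0 0 := ⟨_, rfl⟩
  have hCn : 0 ≤ C := by rw [hCd]; exact le_max_right _ _
  have hCC : C0 ≤ C := by rw [hCd]; exact le_max_left _ _
  obtain ⟨R, hR⟩ := (hU1' C hCn).exists
  have hWK := pot_min hW hCn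
  obtain ⟨c, hc⟩ := exists_scat hWK hq0 hμ0 (boxM_sym R)
  have hR' := hR c hc
  have hWKI : ∫ y, min (Wr v ℓ y) C ≤ ∫ y, Wr v ℓ y :=
    integral_mono hWK.int hW.int (fun y => min_le_left _ _)
  have hgI := (gh_zero_le hWK hq0 hμ0 hc).trans hWKI
  rw [scat_Q hWK hc] at hR' hgI
  obtain ⟨B1, hB1, c1, hc1, hQ1⟩ := hC0 C hCC _ (boxM_sym R) c hc.even (by linarith)
  have hℓ3 : 0 < ℓ ^ 3 := by positivity
  obtain ⟨X, hX⟩ : ∃ X, X = Qf (Wr v ℓ) q μ B1 c1 := ⟨_, rfl⟩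
  have hXU : ℓ ^ 3 * X ≤ scatG m v + (A + ε / 4) * √μ + η := by
    have h1 : ℓ ^ 3 * X ≤ ℓ ^ 3 * (Qf (fun y => min (Wr v ℓ y) C) q μ ((boxM R).erase 0) c +
        η / ℓ ^ 3) := mul_le_mul_of_nonneg_left (by rw [hX]; exact hQ1) hℓ3.le
    have h2 : ℓ ^ 3 * (Qf (fun y => min (Wr v ℓ y) C) q μ ((boxM R).erase 0) c +
        η / ℓ ^ 3) = ℓ ^ 3 * Qf (fun y => min (Wr v ℓ y) C) q μ ((boxM R).erase 0) c + η := by
      field_simp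
    linarith
  have hXL := hU2' B1 hB1 c1 hc1
  obtain ⟨ω, hω⟩ : ∃ ω, ω = ∑ n ∈ B1, c1 n ^ 2 := ⟨_, rfl⟩
  have hω0 : 0 ≤ ω := by rw [hω]; exact Finset.sum_nonneg (fun n _ => sq_nonneg _)
  have hXω : Qf (Wr v ℓ) q (μ / 2) B1 c1 = X - μ * ω := by
    rw [hX, hω]
    unfold Qf
    have h1 : ∑ n ∈ B1, (2 * (q * H751R2.LHY.sq n) + 2 * μ) * c1 n ^ 2 =
        ∑ n ∈ B1, (2 * (q * H751R2.LHY.sq n) + 2 * (μ / 2)) * c1 n ^ 2 + μ * ∑ n ∈ B1, c1 n ^ 2 := by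
      rw [Finset.mul_sum, ← Finset.sum_add_distrib]
      exact Finset.sum_congr rfl fun n _ => by ring
    rw [h1]; ring
  rw [hXω] at hXL
  have hAS : (A + ε / 4) * √μ ≤ (A + ε / 2) * S := by
    have h1 : (A + ε / 4) * √μ ≤ (A + ε / 4) * ((1 + θ / 4) * S) :=
      mul_le_mul_of_nonneg_left hsμ (by positivity)
    have h2 : (A + ε / 4) * ((1 + θ / 4) * S) = ((A + ε / 4) + (A + ε / 4) * (θ / 4)) * S := by
      ring
    have h3 : ((A + ε / 4) + (A + ε / 4) * (θ / 4)) * S ≤ ((A + ε / 4) + ε / 4) * S :=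
      mul_le_mul_of_nonneg_right (by linarith) hS0.le
    have h4 : ((A + ε / 4) + ε / 4) * S = (A + ε / 2) * S := by ring
    linarith
  have hωN : (N : ℝ) * ω ≤ θ / 2 := by
    have h1 : μ * (ℓ ^ 3 * ω) ≤ θ * V1 := by
      have h2 : ℓ ^ 3 * (X - μ * ω) = ℓ ^ 3 * X - μ * (ℓ ^ 3 * ω) := by ring
      have h3 : (A + ε / 2) * S + η + S ≤ S * Γ := by
        rw [hη, hΓ]
        nlinarith [mul_nonneg hA0 hS0.le, mul_pos hε hS0]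
      linarith
    rw [hμ] at h1
    have h4 : (2 + θ) * (ρ * V1) * (ℓ ^ 3 * ω) = (2 + θ) * ((N : ℝ) * ω) * V1 := by
      rw [hNℓ]; ring
    rw [h4] at h1
    have h5 : (2 + θ) * ((N : ℝ) * ω) ≤ θ := le_of_mul_le_mul_right h1 hV1p
    have h6 : 0 ≤ θ * ((N : ℝ) * ω) := by positivity
    nlinarith
  have hs : ρ * V0 = N * ∫ y, Wr v ℓ y := by
    rw [hI, hNℓ]; field_simp
  have hΔμ : K * ρ + (2 + θ) * (ρ * V0) ≤ μ := by
    have h1 : 0 ≤ θ * (K * ρ) := by positivity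
    rw [hμ, hV1]
    nlinarith
  obtain ⟨φ, hφ, hφ1, hE⟩ := trialE (N := N) hW hWm hq0 hB1 hc1 (μ := μ) (s := ρ * V0) (X := X)
    (θ := θ) (Δ := K * ρ) (by positivity) hs (by positivity) hΔμ (by rw [← hω]; exact hωN) hX.ge
  refine ⟨φ, hφ, hφ1, ?_⟩
  rw [potE_congr (perPot_ae hvm hv hℓ) φ]
  refine hE.trans (ENNReal.ofReal_le_ofReal ?_)
  have h1 : (N : ℝ) ^ 2 / 2 * X = ρ / 2 * (ℓ ^ 3 * X) * N := by
    have : (N : ℝ) ^ 2 = N * (ρ * ℓ ^ 3) := by rw [← hNℓ]; ring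
    rw [this]; ring
  rw [h1, ← hS]
  refine mul_le_mul_of_nonneg_right (mul_le_mul_of_nonneg_left ?_ (by positivity)) hN0.le
  have h2 : (A + ε / 2) * S + η ≤ (A + ε) * S := by
    rw [hη]
    nlinarith [mul_pos hε hS0]
  linarith

end

end Pool.Agent.J6H62.BG
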